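import Pool.Agent.ACL.Fin

/-!
# Stable sets in sparse random graphs: lower bounds for circuits of bounded depth

`MP_f583e4_lc`, Q1.  The definitions are in `Pool/Agent/ACL/Stmt.lean`:

* `Gate W`: a conjunction or disjunction of unbounded fan-in of literals (wires or negated wires);
* `Circ E s`: a circuit with the input variables `E` and `s` gates on every level; the wires of a
  gate are input variables and gates of the preceding level;
* `adj G`: the adjacency matrix of the graph `G` on `Fin n`, the input of the circuit;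
* `outS C D out G`: the set of the vertices `v` for which the gate `out v` on the level `D` has the
  value `true`;
* `Finds F k G`: `F G` is a stable set of `G` with at least `n / k` vertices;
* `succ F k M`: the probability of `Finds (F r) k G`, for a uniform random seed `r` and `G` uniform
  among the graphs on `Fin n` with `M` edges;
* `Mk ε k n`: the number of edges `⌊(1/2 + ε) k (ln k) n⌋` of the problem.

For every `ε > 0` and all large `k`, a randomised, non-uniform circuit of depth `D` finds a stable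
set with at least `n / k` vertices in `G_{n,M_k(n)}` only with a tiny probability:

1. at most `(D s + 1) 2 ^ (-t)` for every `t ≥ 1` with `(16 t) ^ (D + 3) ≤ n ^ (1 - γ)`
   (the depth may grow with `n`);
2. constant depth: size up to `exp (n ^ ((1 - γ) / (D + 3)))` gives a probability at most
   `exp (- n ^ ((1 - γ) / (D + 3)))`;
3. polynomial size and depth up to `(1 - γ) ln n / ln ln n` give a probability at most `n ^ (-c)`
   for every `c`.
-/

namespace Pool.Agent.Results.MP_f583e4_lc.Circuits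

open Pool.Agent.ACL

/-- **Circuits of bounded depth do not find stable sets with `n / k` vertices.** -/
theorem result : ∀ ε : ℝ, 0 < ε → ∃ k₀ : ℕ, ∀ k : ℕ, k₀ ≤ k →
    (∀ γ : ℝ, 0 < γ → ∃ n₀ : ℕ, ∀ n : ℕ, n₀ ≤ n → ∀ (Ω : Type) (_ : Fintype Ω) (s D t : ℕ)
      (C : Ω → Circ (Fin n × Fin n) s) (out : Ω → Fin n → Fin s),
      1 ≤ t → (16 * (t : ℝ)) ^ (D + 3) ≤ (n : ℝ) ^ (1 - γ) →
      succ (fun r => outS (C r) D (out r)) k (Mk ε k n) ≤ (D * s + 1) * (1 / 2) ^ t) ∧
    (∀ γ : ℝ, 0 < γ → γ < 1 → ∀ D : ℕ, ∃ n₀ : ℕ, ∀ n : ℕ, n₀ ≤ n →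
      ∀ (Ω : Type) (_ : Fintype Ω) (s : ℕ)
      (C : Ω → Circ (Fin n × Fin n) s) (out : Ω → Fin n → Fin s),
      (s : ℝ) ≤ Real.exp ((n : ℝ) ^ ((1 - γ) / (D + 3))) →
      succ (fun r => outS (C r) D (out r)) k (Mk ε k n) ≤
        Real.exp (-((n : ℝ) ^ ((1 - γ) / (D + 3))))) ∧
    (∀ γ c : ℝ, 0 < γ → γ < 1 → 0 < c → ∃ n₀ : ℕ, ∀ n : ℕ, n₀ ≤ n →
      ∀ (Ω : Type) (_ : Fintype Ω) (s D : ℕ)
      (C : Ω → Circ (Fin n × Fin n) s) (out : Ω → Fin n → Fin s),
      (s : ℝ) ≤ (n : ℝ) ^ c → (D : ℝ) ≤ (1 - γ) * Real.log n / Real.log (Real.log n) →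
      succ (fun r => outS (C r) D (out r)) k (Mk ε k n) ≤ (n : ℝ) ^ (-c)) := by
  intro ε hε
  obtain ⟨k₁, h1⟩ := main hε
  obtain ⟨k₂, h2⟩ := main_fixed hε
  obtain ⟨k₃, h3⟩ := main_poly hε
  refine ⟨max k₁ (max k₂ k₃), fun k hk => ⟨?_, ?_, ?_⟩⟩
  · exact h1 k ((le_max_left _ _).trans hk)
  · exact h2 k (((le_max_left _ _).trans (le_max_right _ _)).trans hk)
  · exact h3 k (((le_max_right _ _).trans (le_max_right _ _)).trans hk)

end Pool.Agent.Results.MP_f583e4_lc.Circuits
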