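import Pool.Agent.LKA.Fin

/-!
# Lookahead does not help exploration algorithms for stable sets in sparse random graphs

`MP_f583e4_lc`, Q1, restricted model. For every `ε > 0` and every exponent `0 ≤ c < min (1, 2ε)`:
for all large `k`, no exploration algorithm (of unbounded computational power) which knows the
degree sequence, reveals the vertices one at a time with their complete neighbourhoods, in an
adaptive order, and which never keeps more than `n / k^(1-c)` revealed vertices undecided, finds a
stable set with at least `n / k` vertices in the random graph with `M_k(n)` edges; this holds with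
an exponentially small failure probability, so even for families of `exp (δ n ln k / k)` such
algorithms.
-/

namespace Pool.Agent.Results.MP_f583e4_lc.Lookahead

/-- The graphs `G` and `G'` on the vertex set `Fin n` give the same information after `t` steps of
an exploration whose `s`-th revealed vertex (in `G`) is `next G s`: they have the same degree
sequence, the same first `t` revealed vertices, and these have the same neighbourhoods. -/
def SameInfo {n : ℕ} (next : SimpleGraph (Fin n) → ℕ → Fin n) (t : ℕ)
    (G G' : SimpleGraph (Fin n)) : Prop :=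
  (∀ v, (G.neighborSet v).ncard = (G'.neighborSet v).ncard) ∧
    ∀ s < t, next G s = next G' s ∧ G.neighborSet (next G s) = G'.neighborSet (next G s)

/-- An exploration algorithm on graphs with vertex set `Fin n`, of unbounded computational power.
On the input `G` it reveals the vertices `next G 0, …, next G (n-1)` (all different), one at a time,
and each with its complete neighbourhood; it ends with the output `out G`. At time `t` (when `t`
vertices are revealed) it has already accepted the vertices of `acc G t` (they belong to the output),
the revealed vertices in `und G t` are undecided, and all other revealed vertices are rejected (they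
do not belong to the output). The next vertex, the accepted and the undecided vertices at time `t`
are functions of the information at time `t`, see `SameInfo`. -/
structure Explorer (n : ℕ) where
  /-- the vertex revealed in step `t` -/
  next : SimpleGraph (Fin n) → ℕ → Fin n
  /-- the accepted vertices at time `t` -/
  acc : SimpleGraph (Fin n) → ℕ → Finset (Fin n)
  /-- the undecided vertices at time `t` -/
  und : SimpleGraph (Fin n) → ℕ → Finset (Fin n)
  /-- the output -/
  out : SimpleGraph (Fin n) → Finset (Fin n)
  next_inj : ∀ G i j, i < n → j < n → next G i = next G j → i = j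
  causal_next : ∀ G G' t, t < n → SameInfo next t G G' → next G t = next G' t
  causal_acc : ∀ G G' t, t ≤ n → SameInfo next t G G' → acc G t = acc G' t
  causal_und : ∀ G G' t, t ≤ n → SameInfo next t G G' → und G t = und G' t
  acc_out : ∀ G t, t ≤ n → acc G t ⊆ out G
  out_rev : ∀ G t, t ≤ n → ∀ s < t, next G s ∈ out G → next G s ∈ acc G t ∪ und G t

/-- on the input `G` the algorithm outputs a stable set with at least `n / k` vertices -/
def Finds {n : ℕ} (E : Explorer n) (k : ℕ) (G : SimpleGraph (Fin n)) : Prop :=
  (∀ u ∈ E.out G, ∀ v ∈ E.out G, ¬ G.Adj u v) ∧ (n : ℝ) / k ≤ (E.out G).card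

/-- the number of edges `M_k(n) = ⌊(1/2 + ε) k (ln k) n⌋` -/
noncomputable def Mk (ε : ℝ) (k n : ℕ) : ℕ := ⌊(1 / 2 + ε) * k * Real.log k * n⌋₊

/-- For `ε > 0` and `0 ≤ c < min (1, 2ε)` there are `δ > 0` and `k₀` such that for all `k ≥ k₀` and
all large `n`: for every family of at most `exp (δ n ln k / k)` exploration algorithms which have at
most `n / k^(1-c)` undecided vertices at any time, the probability that at least one of them finds a
stable set with at least `n / k` vertices in the random graph with `M_k(n)` edges is at most
`exp (-δ n ln k / k)`. -/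
theorem result (ε c : ℝ) (hε : 0 < ε) (hc : 0 ≤ c) (hc1 : c < 1) (hce : c < 2 * ε) :
    ∃ δ : ℝ, 0 < δ ∧ ∃ k₀ : ℕ, ∀ k : ℕ, k₀ ≤ k → ∃ n₀ : ℕ, ∀ n : ℕ, n₀ ≤ n →
      ∀ (ι : Type) (_ : Fintype ι) (E : ι → Explorer n),
        (Fintype.card ι : ℝ) ≤ Real.exp (δ * (n * Real.log k / k)) →
        (∀ i G, ∀ t ≤ n, (((E i).und G t).card : ℝ) ≤ (n : ℝ) / (k : ℝ) ^ (1 - c)) →
        ({G : SimpleGraph (Fin n) | G.edgeSet.ncard = Mk ε k n ∧ ∃ i, Finds (E i) k G}.ncard :
            ℝ) ≤
          Real.exp (-(δ * (n * Real.log k / k))) *
            {G : SimpleGraph (Fin n) | G.edgeSet.ncard = Mk ε k n}.ncard := by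
  obtain ⟨δ, hδ, k0, h⟩ := LKA.lookahead ε c hε hc hc1 hce
  refine ⟨δ, hδ, k0, fun k hk => ?_⟩
  obtain ⟨n0, h2⟩ := h k hk
  refine ⟨n0, fun n hn ι _ E hι hund => ?_⟩
  have h3 := h2 n hn ι inferInstance
    (fun i => ⟨(E i).next, (E i).acc, (E i).und, (E i).out, (E i).next_inj, (E i).causal_next,
      (E i).causal_acc, (E i).causal_und, (E i).acc_out, (E i).out_rev⟩) hι hund
  have h4 : ∀ B : SimpleGraph (Fin n) → Prop,
      ({G : SimpleGraph (Fin n) | G.edgeSet.ncard = Mk ε k n ∧ B G}.ncard : ℕ) =
        LKA.cnt n (Mk ε k n) B := by
    intro B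
    classical
    unfold LKA.cnt
    rw [← Set.ncard_coe_finset]
    congr 1
    ext G
    simp
  have h5 : ({G : SimpleGraph (Fin n) | G.edgeSet.ncard = Mk ε k n}.ncard : ℕ) =
        LKA.cnt n (Mk ε k n) (fun _ => True) := by
    rw [← h4]
    congr 1
    ext G
    simp
  rw [h4, h5]
  exact h3

end Pool.Agent.Results.MP_f583e4_lc.Lookahead
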