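import Pool.Agent.MCE.Fin
import Pool.Agent.MCE.Sharp

/-!
# Metropolis processes, Glauber dynamics and simulated annealing need exponential time

`MP_f583e4_lc`, Q1.  `M = M_k(n)`.  A single-site chain on the stable sets of a graph `G` on `n`
vertices: at the time `i`, in the state `S` with `j` vertices, choose a uniformly random vertex `v`;
if `v ∈ S` then delete `v` with probability `r i j`; if `v ∉ S` and `S ∪ {v}` is stable then insert
`v` with probability `a i j`.  The number `a i j / r i (j + 1)` is the fugacity at the time `i` and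
size `j`.

(A) For every `ε > 0` and `B ≥ 1` there is `c > 0` such that for all large `k` and all `n ≥ n₀(k)` all
but an `exp (- c n ln k / k)` fraction of the graphs with `M` edges have the following property: for
ALL rates such that the fugacities are at most `k ^ B` and either

* the rates do not depend on the time (arbitrary dependence on the size: Metropolis and Glauber
  dynamics at any fugacity, multicanonical and other size-dependent weights), or
* the fugacities are at least `1` and do not decrease with the time (simulated annealing with an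
  arbitrary cooling schedule, which may also depend on the size), `a i j ≤ B a i (j + 1)`,

and for every starting state `S₀` with at most `c n / k` vertices, for instance the empty set, the
chain visits a stable set with at least `n / k` vertices within `exp (c n ln k / k)` steps with
probability at most `exp (- c n ln k / k)`.

(B) The order `n ln k / k` of these exponents cannot be improved: if `G` has a stable set with at
least `n / k` vertices and possible insertions are always accepted, then the chain started from the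
empty set visits such a set within `⌈n / k⌉` steps with probability at least
`exp (- ⌈n / k⌉ (1 + ln k))`.
-/

namespace Pool.Agent.Results.MP_f583e4_lc.Metropolis

/-- the number of edges `M_k(n) = ⌊(1/2 + ε) k (ln k) n⌋` -/
noncomputable def Mk (ε : ℝ) (k n : ℕ) : ℕ := ⌊(1 / 2 + ε) * k * Real.log k * n⌋₊

/-- the graphs on `Fin n` with `M` edges -/
def Graphs (n M : ℕ) : Set (SimpleGraph (Fin n)) := {G | G.edgeSet.ncard = M}

/-- stable sets -/
def Stable {n : ℕ} (G : SimpleGraph (Fin n)) (S : Finset (Fin n)) : Prop :=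
  ∀ u ∈ S, ∀ v ∈ S, ¬ G.Adj u v

open Classical in
/-- the mean value of `h` after one step of the chain from the state `S` with the insertion
probabilities `a` and the deletion probabilities `r`, which depend on the size of the state -/
noncomputable def step {n : ℕ} (G : SimpleGraph (Fin n)) (a r : ℕ → ℝ)
    (h : Finset (Fin n) → ℝ) (S : Finset (Fin n)) : ℝ :=
  (∑ v : Fin n, if v ∈ S then r S.card * h (S.erase v) + (1 - r S.card) * h S
    else if Stable G (insert v S) then a S.card * h (insert v S) + (1 - a S.card) * h S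
    else h S) / n

open Classical in
/-- the probability that the chain which is in the state `S` at the time `i` visits a set with at
least `n / k` vertices within the next `t` steps -/
noncomputable def hit {n : ℕ} (G : SimpleGraph (Fin n)) (a r : ℕ → ℕ → ℝ) (k : ℕ) :
    ℕ → ℕ → Finset (Fin n) → ℝ
  | 0, _, S => if (n : ℝ) / k ≤ S.card then 1 else 0
  | t + 1, i, S => if (n : ℝ) / k ≤ S.card then 1
      else step G (a i) (r i) (hit G a r k t (i + 1)) S

/-- the admissible rates: `a i j` is the probability of insertion and `r i j` the probability of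
deletion at the time `i` in a set of size `j`; either they do not depend on the time, or the
fugacities `a i j / r i (j + 1)` are at least `1` and non-decreasing in the time -/
def Rates (k B : ℕ) (a r : ℕ → ℕ → ℝ) : Prop :=
  (∀ i j, 0 < a i j ∧ a i j ≤ 1 ∧ 0 < r i j ∧ r i j ≤ 1 ∧ a i j ≤ (k : ℝ) ^ B * r i (j + 1)) ∧
  ((∀ i j, a i j = a 0 j ∧ r i j = r 0 j) ∨
   (∀ i j, r i (j + 1) ≤ a i j ∧ a i j ≤ B * a i (j + 1) ∧
      a i j * r (i + 1) (j + 1) ≤ a (i + 1) j * r i (j + 1)))

private theorem step_eq {n : ℕ} (G : SimpleGraph (Fin n)) (a r : ℕ → ℝ)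
    (h : Finset (Fin n) → ℝ) : step G a r h = MCE.step G a r h := by
  funext S
  unfold step MCE.step
  rfl

private theorem hit_eq {n : ℕ} (G : SimpleGraph (Fin n)) (a r : ℕ → ℕ → ℝ) (k t : ℕ) :
    ∀ i, hit G a r k t i = MCE.hit G a r (MCE.pmx k n) t i := by
  have hc : ∀ S : Finset (Fin n), (n : ℝ) / k ≤ S.card ↔ MCE.pmx k n ≤ S.card := by
    intro S
    unfold MCE.pmx
    rw [Nat.ceil_le]
  induction t with
  | zero =>
    intro i
    funext S
    simp only [hit, MCE.hit, hc]
  | succ t ih =>
    intro i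
    funext S
    simp only [hit, MCE.hit, hc, ih, step_eq]

/-- all but an `exp (- c n ln k / k)` fraction of the graphs with `M_k(n)` edges: all chains fail -/
theorem result (ε : ℝ) (hε : 0 < ε) (B : ℕ) (hB : 1 ≤ B) :
    (∃ c : ℝ, 0 < c ∧ ∃ k₀ : ℕ, ∀ k : ℕ, k₀ ≤ k → ∃ n₀ : ℕ, ∀ n : ℕ, n₀ ≤ n →
      (1 - Real.exp (-(c * (n * Real.log k / k)))) * (Graphs n (Mk ε k n)).ncard ≤
        ({G | G ∈ Graphs n (Mk ε k n) ∧ ∀ a r : ℕ → ℕ → ℝ, Rates k B a r →
          ∀ S₀ : Finset (Fin n), Stable G S₀ → (S₀.card : ℝ) ≤ c * (n / k) →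
          ∀ t : ℕ, (t : ℝ) ≤ Real.exp (c * (n * Real.log k / k)) →
            hit G a r k t 0 S₀ ≤ Real.exp (-(c * (n * Real.log k / k)))} :
          Set (SimpleGraph (Fin n))).ncard) ∧
    (∀ (n k : ℕ) (G : SimpleGraph (Fin n)) (a r : ℕ → ℕ → ℝ), 0 < k →
      (∀ i j, a i j = 1 ∧ 0 ≤ r i j ∧ r i j ≤ 1) →
      (∃ Z : Finset (Fin n), Stable G Z ∧ (n : ℝ) / k ≤ Z.card) →
      ∀ t : ℕ, ⌈(n : ℝ) / k⌉₊ ≤ t →
        Real.exp (-(⌈(n : ℝ) / k⌉₊ * (1 + Real.log k))) ≤ hit G a r k t 0 ∅) := by
  classical
  refine ⟨?_, ?_⟩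
  · obtain ⟨c, hc, k₀, hk⟩ := MCE.main ε hε B hB
    refine ⟨c, hc, k₀, fun k hk0 => ?_⟩
    obtain ⟨n₀, hn⟩ := hk k hk0
    refine ⟨n₀, fun n hn0 => ?_⟩
    have h := hn n hn0
    set E := Real.exp (-(c * (n * Real.log k / k))) with hE
    set P : SimpleGraph (Fin n) → Prop := fun G => ∀ a r : ℕ → ℕ → ℝ,
      MCE.Adm ((k : ℝ) ^ B) B a r →
        ∀ S₀ : Finset (Fin n), MCE.Stb G S₀ → (S₀.card : ℝ) ≤ c * (n / k) →
        ∀ t : ℕ, (t : ℝ) ≤ Real.exp (c * (n * Real.log k / k)) →
          MCE.hit G a r (MCE.pmx k n) t 0 S₀ ≤ E with hP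
    have e1 : ((Graphs n (Mk ε k n)).ncard : ℝ) = (MCE.Gs n (MCE.Mk ε k n)).card := by
      rw [← Set.ncard_coe_finset]
      congr 2
      ext G
      simp [Graphs, MCE.Gs, Mk, MCE.Mk]
    have e2 : (({G | G ∈ Graphs n (Mk ε k n) ∧ ∀ a r : ℕ → ℕ → ℝ, Rates k B a r →
          ∀ S₀ : Finset (Fin n), Stable G S₀ → (S₀.card : ℝ) ≤ c * (n / k) →
          ∀ t : ℕ, (t : ℝ) ≤ Real.exp (c * (n * Real.log k / k)) →
            hit G a r k t 0 S₀ ≤ E} :
          Set (SimpleGraph (Fin n))).ncard : ℝ) =
        ((MCE.Gs n (MCE.Mk ε k n)).filter P).card := by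
      rw [← Set.ncard_coe_finset]
      congr 2
      ext G
      constructor
      · rintro ⟨h1, h2⟩
        refine Finset.mem_coe.2 (Finset.mem_filter.2 ⟨Finset.mem_filter.2
          ⟨Finset.mem_univ _, h1⟩, fun a r ha S₀ hS hc1 t ht => ?_⟩)
        rw [← hit_eq]
        exact h2 a r ha S₀ hS hc1 t ht
      · intro h1
        obtain ⟨h2, h3⟩ := Finset.mem_filter.1 (Finset.mem_coe.1 h1)
        refine ⟨(Finset.mem_filter.1 h2).2, fun a r ha S₀ hS hc1 t ht => ?_⟩
        rw [hit_eq]
        exact h3 a r ha S₀ hS hc1 t ht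
    have e3 : (((MCE.Gs n (MCE.Mk ε k n)).filter P).card : ℝ) +
        ((MCE.Gs n (MCE.Mk ε k n)).filter (fun G => ¬ P G)).card =
          (MCE.Gs n (MCE.Mk ε k n)).card := by
      exact_mod_cast Finset.card_filter_add_card_filter_not (s := MCE.Gs n (MCE.Mk ε k n)) P
    rw [e1, e2]
    have h' : (((MCE.Gs n (MCE.Mk ε k n)).filter (fun G => ¬ P G)).card : ℝ) ≤
        E * (MCE.Gs n (MCE.Mk ε k n)).card := h
    linarith
  · intro n k G a r hk har hZ t ht
    obtain ⟨Z, hZ1, hZ2⟩ := hZ
    have h := MCE.hit_ge G a r (fun i j => (har i j).1) (fun i j => (har i j).2) hk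
      (Z := Z) hZ1 hZ2 t ht
    rw [hit_eq]
    exact h

end Pool.Agent.Results.MP_f583e4_lc.Metropolis
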