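import Pool.Agent.ZL.Fin

/-!
# Stable sets in sparse random graphs: a tiny success probability is as good as one tending to 1

`MP_f583e4_lc`, Q1.  The definitions are in `Pool/Agent/ZL/Stmt.lean`:

* `code G`: the adjacency matrix of the graph `G` on `Fin n`; `Gr n m`: the graphs on `Fin n` with
  `m` edges;
* `Found G b a`: the list `b` of bits describes a stable set of `G` with at least `a` vertices;
* `succ n m q a A`: the probability that `A (code G) ρ` describes a stable set of `G` with at least
  `a` vertices, for `G` uniform in `Gr n m` and `ρ` uniform in the bit strings of length `q`;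
* `Q1`: the question of the problem: there are `ε > 0` and one (randomised) polynomial time
  algorithm with `succ n (M_k(n)) (q n) (n / k) → 1` for every `k ≥ 3`;
* `WeakQ1`: there are `ε > 0` and one (randomised) polynomial time algorithm which gets an advice
  string `w` of length `O(log n)` depending on `k` and `n`, such that
  `succ n (M_k(n)) (q n) (n / k) ≥ n ^ (-1 / k ^ 5)` for all large `k` and all `n ≥ n₀(k)`.

Polynomial time is `N68a2faeb.IsPolyTime` (Mathlib's two-stack machines, `Turing.TM2`).

Part 1: `Q1` and `WeakQ1` are equivalent.  Parts 2 and 3 are the general form for an arbitrary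
algorithm `A` with advice of length at most `L log₂ n`: if `A` finds a stable set with `a n`
vertices in `G_{n,m'}` with small probability, then an algorithm without advice finds one with
`a' n` vertices, `a' < a`, in `G_{n,m}`, `m ≤ m' ≤ c n`, with a probability close to 1.  In part 2
the algorithm `B` depends only on `A` and `L`, and the small probability is
`n ^ (-1 / (140 (c / (a - a'))² + 20))`; in part 3 it is `n ^ (-C)`.
-/

namespace Pool.Agent.Results.MP_f583e4_lc.ZeroOneLaw

open Pool.Agent.ZL Filter

/-- **Amplification of the success probability.** -/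
theorem result :
    (Q1 ↔ WeakQ1) ∧
    (∀ (A : AAlg) (q : Polynomial ℕ) (L : ℕ), N68a2faeb.IsPolyTime A →
      ∃ (B : Alg) (qB : Polynomial ℕ), N68a2faeb.IsPolyTime B ∧
        ∀ c a' a τ : ℝ, 0 < c → a' < a → 0 < τ →
          ∀ᶠ n : ℕ in atTop, ∀ m m' : ℕ, m ≤ m' → (m' : ℝ) ≤ c * n →
            ∀ w : List Bool, w.length ≤ L * Nat.log 2 n →
              (n : ℝ) ^ (-(1 / (140 * (c / (a - a')) ^ 2 + 20))) ≤
                succ n m' (q.eval n) (a * n) (fun x r => A ((x, w), r)) →
              1 - τ ≤ succ n m (qB.eval n) (a' * n) (fun x r => B (x, r))) ∧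
    (∀ (A : AAlg) (q : Polynomial ℕ) (L C K : ℕ), N68a2faeb.IsPolyTime A →
      ∀ c a' a : ℝ, 0 < c → a' < a →
        ∃ (B : Alg) (qB : Polynomial ℕ), N68a2faeb.IsPolyTime B ∧
          ∀ᶠ n : ℕ in atTop, ∀ m m' : ℕ, m ≤ m' → (m' : ℝ) ≤ c * n →
            ∀ w : List Bool, w.length ≤ L * Nat.log 2 n →
              1 / (n : ℝ) ^ C ≤ succ n m' (q.eval n) (a * n) (fun x r => A ((x, w), r)) →
              1 - 1 / (n : ℝ) ^ K ≤ succ n m (qB.eval n) (a' * n) (fun x r => B (x, r))) := by
  refine ⟨q1_iff, fun A q L hA => ⟨amp A q (1 + 2 * L), ampq q (1 + 2 * L), amp_poly hA q _, ?_⟩,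
    fun A q L C K hA c a' a hc ha => ?_⟩
  · intro c a' a τ hc ha hτ
    exact thmBX A q L c a' a τ hc ha hτ
  · obtain ⟨D, h⟩ := thmAX A q c a' a hc ha L C K
    exact ⟨amp A q D, ampq q D, amp_poly hA q D, h⟩

end Pool.Agent.Results.MP_f583e4_lc.ZeroOneLaw
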